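import Pool.Agent.U475.PL.Asm5

/-!
Goldbach type representations with the prime between the root and one half.
-/

namespace Pool.Agent.U475.PL

open Finset Filter
open Pool.Agent.H442R2
open Pool.Agent.H442R2.KF
open Pool.Agent.W23.DC
open Pool.Agent.W23.PL

/-- `x ^ (6/7)` is small -/
theorem large_B (c : ℝ) (hc : 0 < c) : ∃ X₁ : ℕ, ∀ X : ℕ, X₁ ≤ X →
    12 * (X : ℝ) ^ (6 / 7 : ℝ) ≤ c * (Real.log (Real.log X) / Real.log X) * (X / Real.log X) ∧
      2 ≤ Real.log X ∧ 1 ≤ Real.log (Real.log X) := by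
  obtain ⟨M, hM⟩ := growth c hc 0
  have h1 : ∀ᶠ x : ℝ in atTop, 2 ≤ Real.log x := Real.tendsto_log_atTop.eventually_ge_atTop 2
  obtain ⟨M2, hM2⟩ := eventually_atTop.1 ((tendsto_natCast_atTop_atTop (R := ℝ)).eventually h1)
  refine ⟨max M M2, fun X hX => ?_⟩
  obtain ⟨h2, h3, h4⟩ := hM X ((le_max_left _ _).trans hX)
  have h5 := hM2 X ((le_max_right _ _).trans hX)
  refine ⟨?_, h5, h3⟩
  rw [pow_zero] at h2
  linarith

open Classical in
/-- from all the integers to the even numbers `2 n`, `X < n ≤ 2 X`, and the primes between `√(2n)` and `n` -/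
theorem root_half (hd : ∀ δ : ℝ, 0 < δ → ∃ (c K : ℝ) (U : ℕ), 0 < c ∧ 0 < K ∧ ∀ X : ℕ, 3 ≤ X →
      ∀ A : Finset ℕ, (∀ p ∈ A, p.Prime ∧ p ≤ X) → δ * X / Real.log X ≤ A.card →
      (((Icc (-(2 * X : ℤ)) (2 * X)).filter (fun a : ℤ =>
        ((A.filter (fun p => Rep' X U a p AP2)).card : ℝ) <
          c * (Real.log (Real.log X) / Real.log X) * A.card)).card : ℝ) ≤
            K * (Real.log X / Real.log (Real.log X))) (δ : ℝ) (hδ : 0 < δ) :
    ∃ (c K : ℝ) (U : ℕ), 0 < c ∧ ∀ X : ℕ, 3 ≤ X → ∀ A : Finset ℕ,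
      (∀ p ∈ A, p.Prime ∧ p ≤ X) → δ * X / Real.log X ≤ A.card →
      (((Ioc X (2 * X)).filter (fun n : ℕ =>
        ((A.filter (fun p => 2 * n < p ^ 2 ∧ ∃ m s : ℕ, 1 ≤ m ∧ (m : ℝ) ≤ Real.log X ^ U ∧ 1 < s ∧
          2 * n = p + m * s ∧ AP2 s ∧ ∀ q : ℕ, q.Prime → q ∣ s → (X : ℝ) ^ (1 / 7 : ℝ) < q)).card : ℝ) <
          c * (Real.log (Real.log X) / Real.log X) * A.card)).card : ℝ) ≤
            K * (Real.log X / Real.log (Real.log X)) := by
  obtain ⟨c, K, U, hc, hK, H⟩ := hd (δ / 2) (by positivity)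
  obtain ⟨X₁, hX₁⟩ := large_B (c / 4 * δ) (by positivity)
  refine ⟨c / 4, max (2 * K) (X₁ + 1), 2 * U, by positivity, ?_⟩
  intro X hX A hA hAc
  have hLX1 := one_lt_log3 hX
  have hrat := ratio_ge_one hLX1
  have hLLX : 0 < Real.log (Real.log X) := Real.log_pos hLX1
  have hLX0 : 0 < Real.log X := by linarith
  rcases lt_or_ge X X₁ with hlt | hge
  · have h1 : ∀ S : Finset ℕ, S ⊆ Ioc X (2 * X) →
        (S.card : ℝ) ≤ max (2 * K) (X₁ + 1) * (Real.log X / Real.log (Real.log X)) := by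
      intro S hS
      have h2 : S.card ≤ X₁ + 1 := by
        have := Finset.card_le_card hS
        rw [Nat.card_Ioc] at this
        omega
      have h3 : (S.card : ℝ) ≤ X₁ + 1 := by exact_mod_cast h2
      have h4 : (X₁ + 1 : ℝ) ≤ max (2 * K) (X₁ + 1) := le_max_right _ _
      have h5 : (0 : ℝ) ≤ X₁ + 1 := by positivity
      calc (S.card : ℝ) ≤ max (2 * K) (X₁ + 1) * 1 := by
            rw [mul_one]
            exact h3.trans h4
        _ ≤ _ := mul_le_mul_of_nonneg_left hrat (h5.trans h4)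
    exact h1 _ (filter_subset _ _)
  obtain ⟨hbig, hL2, hLL1⟩ := hX₁ X hge
  have hX3 : (3 : ℝ) ≤ X := by exact_mod_cast hX
  have hX0 : (0 : ℝ) < X := by linarith
  have hcast : ((2 * X : ℕ) : ℝ) = 2 * X := by push_cast; ring
  have hlogN1 : Real.log X ≤ Real.log ((2 * X : ℕ) : ℝ) := by
    rw [hcast]
    exact Real.log_le_log hX0 (by linarith)
  have hlogN2 : Real.log ((2 * X : ℕ) : ℝ) ≤ 2 * Real.log X := by
    rw [hcast, Real.log_mul (by norm_num) hX0.ne']
    have : Real.log 2 ≤ Real.log X := Real.log_le_log (by norm_num) (by linarith)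
    linarith
  have hLN0 : 0 < Real.log ((2 * X : ℕ) : ℝ) := by linarith
  have hLLN1 : Real.log (Real.log X) ≤ Real.log (Real.log ((2 * X : ℕ) : ℝ)) :=
    Real.log_le_log hLX0 hlogN1
  have hLLN0 : 0 < Real.log (Real.log ((2 * X : ℕ) : ℝ)) := by linarith
  have hA3 : δ / 2 * ((2 * X : ℕ) : ℝ) / Real.log ((2 * X : ℕ) : ℝ) ≤ A.card := by
    refine le_trans ?_ hAc
    calc δ / 2 * ((2 * X : ℕ) : ℝ) / Real.log ((2 * X : ℕ) : ℝ) =
          δ * X / Real.log ((2 * X : ℕ) : ℝ) := by rw [hcast]; ring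
      _ ≤ δ * X / Real.log X := div_le_div_of_nonneg_left (by positivity) hLX0 hlogN1
  have key := H (2 * X) (by omega) A (fun p hp => ⟨(hA p hp).1, by
    have := (hA p hp).2
    omega⟩) hA3
  -- the map `n ↦ 2 n`
  have h1 : ((Ioc X (2 * X)).filter (fun n : ℕ =>
        ((A.filter (fun p => 2 * n < p ^ 2 ∧ ∃ m s : ℕ, 1 ≤ m ∧ (m : ℝ) ≤ Real.log X ^ (2 * U) ∧ 1 < s ∧
          2 * n = p + m * s ∧ AP2 s ∧ ∀ q : ℕ, q.Prime → q ∣ s → (X : ℝ) ^ (1 / 7 : ℝ) < q)).card : ℝ) <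
          c / 4 * (Real.log (Real.log X) / Real.log X) * A.card)).card ≤
      ((Icc (-(2 * (2 * X : ℕ) : ℤ)) (2 * (2 * X : ℕ))).filter (fun a : ℤ =>
        ((A.filter (fun p => Rep' (2 * X) U a p AP2)).card : ℝ) <
          c * (Real.log (Real.log ((2 * X : ℕ) : ℝ)) / Real.log ((2 * X : ℕ) : ℝ)) * A.card)).card := by
    apply Finset.card_le_card_of_injOn (fun n : ℕ => (2 * n : ℤ))
    · intro n hn
      rw [mem_coe, mem_filter, mem_Ioc] at hn
      obtain ⟨⟨hn1, hn2⟩, hn3⟩ := hn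
      rw [mem_coe, mem_filter, mem_Icc]
      refine ⟨⟨by push_cast; omega, by push_cast; omega⟩, ?_⟩
      -- compare the numbers of representations
      have hsub2 : A.filter (fun p => Rep' (2 * X) U (2 * n : ℤ) p AP2) ⊆
          A.filter (fun p => 2 * n < p ^ 2 ∧ ∃ m s : ℕ, 1 ≤ m ∧ (m : ℝ) ≤ Real.log X ^ (2 * U) ∧ 1 < s ∧
          2 * n = p + m * s ∧ AP2 s ∧ ∀ q : ℕ, q.Prime → q ∣ s → (X : ℝ) ^ (1 / 7 : ℝ) < q) ∪
          Icc 1 ⌊(2 : ℝ) * (X : ℝ) ^ (6 / 7 : ℝ)⌋₊ := by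
        intro p hp
        rw [mem_filter] at hp
        obtain ⟨hpA, m, s, h1, h2, h3, h4, h5, h6⟩ := hp
        have hpX := hA p hpA
        rw [mem_union]
        by_cases hsq : 2 * n < p ^ 2
        · left
          rw [mem_filter]
          refine ⟨hpA, hsq, m, s, h1, ?_, h3, ?_, h5, fun q hq hqs => ?_⟩
          · refine h2.trans ?_
            calc Real.log ((2 * X : ℕ) : ℝ) ^ U ≤ (Real.log X ^ 2) ^ U := by
                  apply pow_le_pow_left₀ hLN0.le
                  nlinarith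
              _ = Real.log X ^ (2 * U) := by rw [← pow_mul]
          · have h7 : ((2 * n : ℤ) - p).natAbs = 2 * n - p := by omega
            rw [h7] at h4
            omega
          · refine lt_of_le_of_lt ?_ (h6 q hq hqs)
            apply Real.rpow_le_rpow hX0.le _ (by norm_num)
            rw [hcast]
            linarith
        · right
          rw [mem_Icc]
          refine ⟨hpX.1.one_le, Nat.le_floor ?_⟩
          rw [not_lt] at hsq
          have h7 : ((p : ℝ)) ^ 2 ≤ 4 * X := by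
            have : p ^ 2 ≤ 4 * X := by omega
            exact_mod_cast this
          have h8 : (X : ℝ) ≤ ((X : ℝ) ^ (6 / 7 : ℝ)) ^ 2 := by
            rw [← Real.rpow_natCast, ← Real.rpow_mul hX0.le]
            calc (X : ℝ) = (X : ℝ) ^ (1 : ℝ) := (Real.rpow_one _).symm
              _ ≤ _ := Real.rpow_le_rpow_of_exponent_le (by linarith) (by norm_num)
          have h9 : (0 : ℝ) ≤ (X : ℝ) ^ (6 / 7 : ℝ) := by positivity
          nlinarith
      have h7 : ((A.filter (fun p => Rep' (2 * X) U (2 * n : ℤ) p AP2)).card : ℝ) ≤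
          ((A.filter (fun p => 2 * n < p ^ 2 ∧ ∃ m s : ℕ, 1 ≤ m ∧ (m : ℝ) ≤ Real.log X ^ (2 * U) ∧ 1 < s ∧
          2 * n = p + m * s ∧ AP2 s ∧ ∀ q : ℕ, q.Prime → q ∣ s → (X : ℝ) ^ (1 / 7 : ℝ) < q)).card : ℝ) +
          2 * (X : ℝ) ^ (6 / 7 : ℝ) := by
        have h8 := (Finset.card_le_card hsub2).trans (Finset.card_union_le _ _)
        rw [Nat.card_Icc, Nat.add_sub_cancel] at h8
        have h9 : ((A.filter (fun p => Rep' (2 * X) U (2 * n : ℤ) p AP2)).card : ℝ) ≤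
          ((A.filter (fun p => 2 * n < p ^ 2 ∧ ∃ m s : ℕ, 1 ≤ m ∧ (m : ℝ) ≤ Real.log X ^ (2 * U) ∧ 1 < s ∧
          2 * n = p + m * s ∧ AP2 s ∧ ∀ q : ℕ, q.Prime → q ∣ s → (X : ℝ) ^ (1 / 7 : ℝ) < q)).card : ℝ) +
          (⌊(2 : ℝ) * (X : ℝ) ^ (6 / 7 : ℝ)⌋₊ : ℝ) := by exact_mod_cast h8
        have h10 := Nat.floor_le (show (0 : ℝ) ≤ (2 : ℝ) * (X : ℝ) ^ (6 / 7 : ℝ) by positivity)
        linarith
      have h8 : Real.log (Real.log X) / (2 * Real.log X) ≤
          Real.log (Real.log ((2 * X : ℕ) : ℝ)) / Real.log ((2 * X : ℕ) : ℝ) :=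
        div_le_div₀ hLLN0.le hLLN1 hLN0 hlogN2
      have h9 : c / 2 * (Real.log (Real.log X) / Real.log X) * A.card ≤
          c * (Real.log (Real.log ((2 * X : ℕ) : ℝ)) / Real.log ((2 * X : ℕ) : ℝ)) * A.card := by
        calc c / 2 * (Real.log (Real.log X) / Real.log X) * A.card =
            c * (Real.log (Real.log X) / (2 * Real.log X)) * A.card := by field_simp
          _ ≤ _ := by gcongr
      have h10 : 12 * (X : ℝ) ^ (6 / 7 : ℝ) ≤ c / 4 * (Real.log (Real.log X) / Real.log X) * A.card := by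
        refine hbig.trans ?_
        calc c / 4 * δ * (Real.log (Real.log X) / Real.log X) * (X / Real.log X) =
            c / 4 * (Real.log (Real.log X) / Real.log X) * (δ * X / Real.log X) := by ring
          _ ≤ _ := by gcongr
      have h11 : c / 2 * (Real.log (Real.log X) / Real.log X) * A.card =
          c / 4 * (Real.log (Real.log X) / Real.log X) * A.card +
          c / 4 * (Real.log (Real.log X) / Real.log X) * A.card := by ring
      have h12 : (0 : ℝ) ≤ (X : ℝ) ^ (6 / 7 : ℝ) := by positivity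
      refine lt_of_le_of_lt h7 ?_
      linarith
    · intro n _ n' _ h
      have h' : (2 * n : ℤ) = 2 * n' := h
      omega
  have h2 : (((Ioc X (2 * X)).filter (fun n : ℕ =>
        ((A.filter (fun p => 2 * n < p ^ 2 ∧ ∃ m s : ℕ, 1 ≤ m ∧ (m : ℝ) ≤ Real.log X ^ (2 * U) ∧ 1 < s ∧
          2 * n = p + m * s ∧ AP2 s ∧ ∀ q : ℕ, q.Prime → q ∣ s → (X : ℝ) ^ (1 / 7 : ℝ) < q)).card : ℝ) <
          c / 4 * (Real.log (Real.log X) / Real.log X) * A.card)).card : ℝ) ≤
      K * (Real.log ((2 * X : ℕ) : ℝ) / Real.log (Real.log ((2 * X : ℕ) : ℝ))) := by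
    refine le_trans ?_ key
    exact_mod_cast h1
  refine h2.trans ?_
  have h3 : Real.log ((2 * X : ℕ) : ℝ) / Real.log (Real.log ((2 * X : ℕ) : ℝ)) ≤
      2 * Real.log X / Real.log (Real.log X) :=
    div_le_div₀ (by positivity) hlogN2 hLLX hLLN1
  calc K * (Real.log ((2 * X : ℕ) : ℝ) / Real.log (Real.log ((2 * X : ℕ) : ℝ)))
      ≤ K * (2 * Real.log X / Real.log (Real.log X)) := by gcongr
    _ = (2 * K) * (Real.log X / Real.log (Real.log X)) := by ring
    _ ≤ _ := by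
        apply mul_le_mul_of_nonneg_right (le_max_left _ _)
        linarith

end Pool.Agent.U475.PL
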