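import Pool.Agent.U475.PL.Asm5

/-!
The upper bound relative to the set `A`.
-/

namespace Pool.Agent.U475.PL

open Finset Filter
open Pool.Agent.H442R2
open Pool.Agent.H442R2.KF
open Pool.Agent.W23.DC
open Pool.Agent.W23.PL

open Classical in
/-- every nonzero integer has at most the expected number of representations, up to a constant -/
theorem upper_A (hUBS : St_UBS) (hVLB : St_VLB) (U : ℕ) (δ : ℝ) (hδ : 0 < δ) : ∃ C : ℝ, 0 < C ∧
    ∀ X : ℕ, 3 ≤ X → ∀ A : Finset ℕ, (∀ p ∈ A, p.Prime ∧ p ≤ X) → δ * X / Real.log X ≤ A.card →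
      ∀ a : ℤ, a ≠ 0 → |(a : ℝ)| ≤ 2 * X →
      ((A.filter (fun p => Rep' X U a p (fun _ => True))).card : ℝ) ≤
        C * (Real.log (Real.log X) / Real.log X) * A.card := by
  obtain ⟨C, X₁, hC, hup⟩ := upper hUBS hVLB U
  have hL3 : 1 < Real.log (3 : ℕ) := one_lt_log3 le_rfl
  have hLL3 : 0 < Real.log (Real.log (3 : ℕ)) := Real.log_pos hL3
  set D : ℝ := Real.log (X₁ + 3) / Real.log (Real.log (3 : ℕ)) with hD
  have hD0 : 0 < D := div_pos (Real.log_pos (by
    have : (0 : ℝ) ≤ X₁ := Nat.cast_nonneg _
    linarith)) hLL3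
  refine ⟨max (C / δ) D, lt_of_lt_of_le hD0 (le_max_right _ _), ?_⟩
  intro X hX A hA hAc a ha ha2
  have hLX1 := one_lt_log3 hX
  have hLLX : 0 < Real.log (Real.log X) := Real.log_pos hLX1
  have hLX0 : 0 < Real.log X := by linarith
  have hr : 0 < Real.log (Real.log X) / Real.log X := by positivity
  rcases lt_or_ge X X₁ with hlt | hge
  · have h1 : ((A.filter (fun p => Rep' X U a p (fun _ => True))).card : ℝ) ≤ A.card := by
      exact_mod_cast Finset.card_filter_le _ _
    have h2 : 1 ≤ D * (Real.log (Real.log X) / Real.log X) := by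
      rw [hD]
      have h3 : Real.log X ≤ Real.log (X₁ + 3) := by
        apply Real.log_le_log
        · have : (3 : ℝ) ≤ X := by exact_mod_cast hX
          linarith
        · have : (X : ℝ) ≤ X₁ := by exact_mod_cast hlt.le
          linarith
      have h4 : Real.log (Real.log (3 : ℕ)) ≤ Real.log (Real.log X) := by
        apply Real.log_le_log (by linarith)
        exact Real.log_le_log (by norm_num) (by exact_mod_cast hX)
      rw [div_mul_div_comm, le_div_iff₀ (by positivity), one_mul]
      calc Real.log (Real.log (3 : ℕ)) * Real.log X ≤ Real.log (Real.log X) * Real.log (X₁ + 3) := by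
            gcongr
        _ = _ := by ring
    have h5 : (0 : ℝ) ≤ A.card := Nat.cast_nonneg _
    have h6 : D * (Real.log (Real.log X) / Real.log X) ≤
        max (C / δ) D * (Real.log (Real.log X) / Real.log X) := by
      gcongr
      exact le_max_right _ _
    nlinarith
  · have h1 : ((A.filter (fun p => Rep' X U a p (fun _ => True))).card : ℝ) ≤
        (((Icc 1 X).filter (fun p : ℕ => p.Prime ∧ Rep' X U a p (fun _ => True))).card : ℝ) := by
      have : A.filter (fun p => Rep' X U a p (fun _ => True)) ⊆
          (Icc 1 X).filter (fun p : ℕ => p.Prime ∧ Rep' X U a p (fun _ => True)) := by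
        intro p hp
        rw [mem_filter] at hp
        rw [mem_filter, mem_Icc]
        have := hA p hp.1
        exact ⟨⟨this.1.one_le, this.2⟩, this.1, hp.2⟩
      exact_mod_cast Finset.card_le_card this
    refine h1.trans ((hup X hge a ha ha2).trans ?_)
    have h2 : (X : ℝ) / Real.log X ≤ A.card / δ := by
      rw [le_div_iff₀ hδ]
      calc (X : ℝ) / Real.log X * δ = δ * X / Real.log X := by ring
        _ ≤ _ := hAc
    calc C * (X / Real.log X) * (Real.log (Real.log X) / Real.log X)
        ≤ C * (A.card / δ) * (Real.log (Real.log X) / Real.log X) := by gcongr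
      _ = C / δ * (Real.log (Real.log X) / Real.log X) * A.card := by ring
      _ ≤ _ := by
          gcongr
          exact le_max_left _ _

end Pool.Agent.U475.PL
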