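import Pool.Agent.U475.PL.Asm5
import Pool.Agent.W23.DC.All
import Pool.Agent.W308.PL.FLW
import Pool.Agent.W462.PL.COSP
import Pool.Agent.W23.PL.Cou
import Pool.Agent.U451.PL.Pbx
import Pool.Agent.U212.PL.Fix
import Pool.Agent.U261.PL.Smo
import Pool.Agent.U928.PL.Cor
import Pool.Agent.U606.PL.Vlb
import Pool.Agent.U8.PL.Bx0
import Pool.Agent.U2.PL.Bxb
import Pool.Agent.U913.PL.Ofd
import Pool.Agent.U502.PL.Ubs

/-!
Project CP: the plan `Pool/Agent/W23/PL` of the library, all statements proved.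
-/

namespace Pool.Agent.U475.PL

open Finset
open Pool.Agent.H442R2
open Pool.Agent.W23.DC
open Pool.Agent.W23.PL

theorem TTC_thm : St_TTC :=
  Pool.Agent.W462.PL.TTC (COU BX.CO_thm COF_thm) BX.RC BX.GS
theorem OFD_thm : St_OFD := Pool.Agent.U913.PL.OFD TTC_thm BX.RC BX.RB
theorem VLB_thm : St_VLB := Pool.Agent.U606.PL.VLB
theorem COR_thm : St_COR := Pool.Agent.U928.PL.COR BX.GS
theorem FLW_thm : St_FLW := Pool.Agent.W308.PL.FLW
theorem BXB_thm : St_BXB := Pool.Agent.U2.PL.BXB FLW_thm COR_thm Pool.Agent.U451.PL.PBX OFD_thm VLB_thm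
  BX.DU (BX.PR BX.PB_thm BX.RT) W586.DC.WXS BX.GS
theorem FIX_thm : St_FIX := Pool.Agent.U212.PL.FIX BXB_thm
theorem BX0_thm : St_BX0 := Pool.Agent.U8.PL.BX0 FLW_thm COR_thm VLB_thm BX.DU W586.DC.WXS BX.GS BX.GW_thm
theorem UBS_thm : St_UBS := Pool.Agent.U502.PL.UBS VLB_thm
theorem SMO_thm : St_SMO := Pool.Agent.U261.PL.SMO UBS_thm VLB_thm

open Classical in
/-- **Chen's theorem in dense sets of primes** -/
theorem dense (δ : ℝ) (hδ : 0 < δ) :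
    ∃ (c K : ℝ) (U : ℕ), 0 < c ∧ 0 < K ∧ ∀ X : ℕ, 3 ≤ X → ∀ A : Finset ℕ,
      (∀ p ∈ A, p.Prime ∧ p ≤ X) → δ * X / Real.log X ≤ A.card →
      (((Icc (-(2 * X : ℤ)) (2 * X)).filter (fun a : ℤ =>
        ((A.filter (fun p => Rep' X U a p AP2)).card : ℝ) <
          c * (Real.log (Real.log X) / Real.log X) * A.card)).card : ℝ) ≤
            K * (Real.log X / Real.log (Real.log X)) :=
  main_X (fun δ hδ => main_N W52.DC.PT W120.DC.LN W586.DC.ER W505.DC.MI MT_thm W378.DC.MP W378.DC.FA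
    W120.DC.NU W366.DC.SFX FIX_thm BX0_thm SMO_thm VLB_thm δ hδ) δ hδ

open Classical in
/-- **the number of exceptions is sharp** -/
theorem sharp_thm (U : ℕ) (η : ℝ) (hη : 0 < η) :
    ∃ (c : ℝ) (X₀ : ℕ), 0 < c ∧ ∀ X : ℕ, X₀ ≤ X → ∀ H : Finset ℤ,
      (∀ h ∈ H, h ≠ 0 ∧ |(h : ℝ)| ≤ 2 * X) →
      (H.card : ℝ) ≤ c * (Real.log X / Real.log (Real.log X)) →
      ∃ A : Finset ℕ, (∀ p ∈ A, p.Prime ∧ p ≤ X) ∧
        (1 - η) * ((Icc 1 X).filter Nat.Prime).card ≤ A.card ∧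
        ∀ h ∈ H, ∀ p ∈ A, ¬ Rep' X U h p (fun _ => True) :=
  sharp UBS_thm VLB_thm U η hη

end Pool.Agent.U475.PL
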