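import Pool.Agent.U475.PL.Asm1

/-!
Counting the exceptional integers; the main theorem in terms of `N`.
-/

namespace Pool.Agent.U475.PL

open Finset Filter
open Pool.Agent.H442R2
open Pool.Agent.H442R2.KF
open Pool.Agent.W23.DC
open Pool.Agent.W23.PL

/-- counting large values from a Bessel type inequality -/
theorem few_of {S : Finset ℤ} {E : ℤ → ℝ} {Q C V ρ κ : ℝ} (hQ : 0 < Q) (hV : 0 < V)
    (hκ : 0 < κ) (hρ : ρ ≤ κ ^ 2 / 2)
    (h : ∀ 𝒜 : Finset ℤ, 𝒜 ⊆ S → ∑ a ∈ 𝒜, (E a) ^ 2 ≤ Q ^ 2 * (C * V + ρ * V ^ 2 * 𝒜.card)) :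
    ((S.filter (fun a => κ * V * Q < |E a|)).card : ℝ) ≤ 2 * C / (κ ^ 2 * V) := by
  classical
  set T := S.filter (fun a => κ * V * Q < |E a|) with hT
  have h1 := h T (filter_subset _ _)
  have h2 : (T.card : ℝ) * (κ * V * Q) ^ 2 ≤ ∑ a ∈ T, (E a) ^ 2 := by
    rw [← nsmul_eq_mul, ← Finset.sum_const]
    apply Finset.sum_le_sum
    intro a ha
    rw [hT, mem_filter] at ha
    rw [← sq_abs (E a)]
    exact pow_le_pow_left₀ (by positivity) ha.2.le 2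
  have h3 : (T.card : ℝ) * (κ ^ 2 * V ^ 2) * Q ^ 2 ≤ (C * V + ρ * V ^ 2 * T.card) * Q ^ 2 := by
    calc _ = (T.card : ℝ) * (κ * V * Q) ^ 2 := by ring
      _ ≤ _ := h2.trans h1
      _ = _ := by ring
  have h4 : (T.card : ℝ) * (κ ^ 2 * V ^ 2) ≤ C * V + ρ * V ^ 2 * T.card :=
    le_of_mul_le_mul_right h3 (by positivity)
  have h5 : ρ * V ^ 2 * T.card ≤ κ ^ 2 / 2 * V ^ 2 * T.card := by gcongr
  rw [le_div_iff₀ (by positivity)]
  have h6 : (T.card : ℝ) * (κ ^ 2 * V) * V ≤ 2 * C * V := by nlinarith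
  exact le_of_mul_le_mul_right h6 hV

/-- the choice of `ε₁` -/
theorem choose_eps (k₁ k₂ e₁ e₂ : ℝ) (hk₁ : 0 < k₁) (hk₂ : 0 < k₂) (he₁ : 0 < e₁) (he₂ : 0 < e₂) :
    ∃ ε : ℝ, 0 < ε ∧ ε ≤ 1 / 25 ∧ ε ≤ e₁ ∧ ε ≤ e₂ ∧ Real.exp (-(1 / ε)) ≤ (k₁ * ε) ^ 2 / 2 ∧
      Real.exp (-(1 / ε)) ≤ k₂ ^ 2 / 2 := by
  have h1 : ∀ᶠ t : ℝ in atTop, t ^ 2 * Real.exp (-t) ≤ k₁ ^ 2 / 2 :=
    (Real.tendsto_pow_mul_exp_neg_atTop_nhds_zero 2).eventually_le_const (by positivity)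
  have h2 : ∀ᶠ t : ℝ in atTop, Real.exp (-t) ≤ k₂ ^ 2 / 2 := by
    have := Real.tendsto_exp_neg_atTop_nhds_zero
    exact this.eventually_le_const (by positivity)
  obtain ⟨t, ht1, ht2, ht3, ht4, ht5⟩ := (h1.and (h2.and ((eventually_ge_atTop 25).and
    ((eventually_ge_atTop (1 / e₁)).and (eventually_ge_atTop (1 / e₂)))))).exists
  have ht0 : 0 < t := by linarith
  refine ⟨1 / t, by positivity, ?_, ?_, ?_, ?_, ?_⟩
  · exact one_div_le_one_div_of_le (by norm_num) ht3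
  · rw [div_le_iff₀ ht0]
    rw [div_le_iff₀ he₁] at ht4
    linarith
  · rw [div_le_iff₀ ht0]
    rw [div_le_iff₀ he₂] at ht5
    linarith
  · rw [one_div_one_div]
    have h3 : (k₁ * (1 / t)) ^ 2 / 2 = (k₁ ^ 2 / 2) / t ^ 2 := by
      field_simp
    rw [h3, le_div_iff₀ (by positivity)]
    linarith
  · rw [one_div_one_div]
    exact ht2

/-- the elements of `A` which pass the first sieve -/
noncomputable def Aa (P : Finset ℕ) (A : Finset ℕ) (a : ℤ) : Finset ℕ :=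
  open Classical in A.filter (fun p : ℕ => xx P ((p : ℤ) - a) = 1)

theorem xx_zero_or (P : Finset ℕ) (m : ℤ) : xx P m = 0 ∨ xx P m = 1 := by
  classical
  unfold xx
  split_ifs
  · exact Or.inr rfl
  · exact Or.inl rfl

theorem fA_Aa (P : Finset ℕ) (A : Finset ℕ) (a : ℤ) (p : ℕ) :
    fA A p * xx P ((p : ℤ) - a) = fA (Aa P A a) p := by
  classical
  unfold fA Aa
  simp only [mem_filter]
  rcases xx_zero_or P ((p : ℤ) - a) with h | h
  · rw [h, mul_zero, if_neg]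
    rintro ⟨-, h1⟩
    exact zero_ne_one h1
  · rw [h, mul_one]
    simp only [and_true]

theorem sum_fA {N : ℕ} {A : Finset ℕ} (hA : ∀ p ∈ A, p.Prime ∧ p ≤ N) :
    ∑ p ∈ (Icc 1 N).filter Nat.Prime, fA A p = A.card := by
  classical
  have h5 : A ⊆ (Icc 1 N).filter Nat.Prime := by
    intro p hp
    have := hA p hp
    rw [mem_filter, mem_Icc]
    exact ⟨⟨this.1.pos, this.2⟩, this.1⟩
  rw [← Finset.sum_subset h5]
  · have : ∑ p ∈ A, fA A p = ∑ p ∈ A, (1 : ℝ) := by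
      apply Finset.sum_congr rfl
      intro p hp
      unfold fA
      rw [if_pos hp]
    rw [this]
    simp
  · intro p _ hpn
    unfold fA
    rw [if_neg hpn]

/-- the number of elements of `A` which pass the first sieve -/
theorem card_Aa {N : ℕ} {A : Finset ℕ} (hA : ∀ p ∈ A, p.Prime ∧ p ≤ N) (P : Finset ℕ) (V : ℝ)
    (a : ℤ) : ∑ p ∈ (Icc 1 N).filter Nat.Prime, fA A p * (xx P ((p : ℤ) - a) - V) =
      (Aa P A a).card - V * A.card := by
  classical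
  have h1 : ∀ p ∈ Aa P A a, p.Prime ∧ p ≤ N := fun p hp => hA p (mem_filter.1 hp).1
  rw [← sum_fA hA, ← sum_fA h1, Finset.mul_sum, ← Finset.sum_sub_distrib]
  apply Finset.sum_congr rfl
  intro p _
  rw [← fA_Aa]
  ring

/-- growth of logarithms -/
theorem growth (k : ℝ) (hk : 0 < k) (j : ℕ) : ∃ M : ℕ, ∀ N : ℕ, M ≤ N →
    12 * (N : ℝ) ^ (6 / 7 : ℝ) + 2 * Real.log N ^ j + 1 ≤
      k * (Real.log (Real.log N) / Real.log N) * (N / Real.log N) ∧ 1 ≤ Real.log (Real.log N) ∧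
      1 ≤ Real.log N := by
  have h1 : ∀ᶠ x : ℝ in atTop, Real.log x ^ ((j : ℝ)) ≤ x ^ (6 / 7 : ℝ) := by
    have := (isLittleO_log_rpow_rpow_atTop (j : ℝ) (show (0 : ℝ) < 6 / 7 by norm_num)).bound one_pos
    filter_upwards [this, eventually_ge_atTop 1] with x hx hx1
    rw [one_mul, Real.norm_of_nonneg (Real.rpow_nonneg (Real.log_nonneg hx1) _),
      Real.norm_of_nonneg (by positivity)] at hx
    exact hx
  have h2 : ∀ᶠ x : ℝ in atTop, 15 * Real.log x ^ (2 : ℝ) ≤ k * x ^ (1 / 7 : ℝ) := by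
    have := (isLittleO_log_rpow_rpow_atTop (2 : ℝ) (show (0 : ℝ) < 1 / 7 by norm_num)).bound
      (show 0 < k / 15 by positivity)
    filter_upwards [this, eventually_ge_atTop 1] with x hx hx1
    rw [Real.norm_of_nonneg (Real.rpow_nonneg (Real.log_nonneg hx1) _),
      Real.norm_of_nonneg (by positivity)] at hx
    linarith
  have h3 : ∀ᶠ x : ℝ in atTop, 1 ≤ Real.log (Real.log x) :=
    (Real.tendsto_log_atTop.comp Real.tendsto_log_atTop).eventually_ge_atTop 1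
  have h4 : ∀ᶠ x : ℝ in atTop, 1 ≤ Real.log x := Real.tendsto_log_atTop.eventually_ge_atTop 1
  have h5 := (h1.and (h2.and (h3.and (h4.and (eventually_ge_atTop 1)))))
  obtain ⟨M, hM⟩ := eventually_atTop.1 ((tendsto_natCast_atTop_atTop (R := ℝ)).eventually h5)
  refine ⟨M, fun N hN => ?_⟩
  obtain ⟨g1, g2, g3, g4, g5⟩ := hM N hN
  refine ⟨?_, g3, g4⟩
  rw [Real.rpow_natCast] at g1
  rw [Real.rpow_two] at g2
  have hN0 : (0 : ℝ) < N := by linarith
  have hL : 0 < Real.log N := by linarith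
  have g6 : (1 : ℝ) ≤ (N : ℝ) ^ (6 / 7 : ℝ) := Real.one_le_rpow g5 (by norm_num)
  have g7 : 15 * (N : ℝ) ^ (6 / 7 : ℝ) ≤ k * (N / Real.log N ^ 2) := by
    rw [← mul_div_assoc, le_div_iff₀ (by positivity)]
    calc 15 * (N : ℝ) ^ (6 / 7 : ℝ) * Real.log N ^ 2 = (N : ℝ) ^ (6 / 7 : ℝ) * (15 * Real.log N ^ 2) := by
          ring
      _ ≤ (N : ℝ) ^ (6 / 7 : ℝ) * (k * (N : ℝ) ^ (1 / 7 : ℝ)) := by gcongr
      _ = k * ((N : ℝ) ^ (6 / 7 : ℝ) * (N : ℝ) ^ (1 / 7 : ℝ)) := by ring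
      _ = k * N := by
          rw [← Real.rpow_add hN0]
          norm_num
  have g8 : k * (N / Real.log N ^ 2) ≤ k * (Real.log (Real.log N) / Real.log N) * (N / Real.log N) := by
    have e1 : k * (Real.log (Real.log N) / Real.log N) * (N / Real.log N) =
        Real.log (Real.log N) * (k * (N / Real.log N ^ 2)) := by
      field_simp
    rw [e1]
    have : 0 ≤ k * (N / Real.log N ^ 2) := by positivity
    nlinarith
  linarith

end Pool.Agent.U475.PL
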