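import Pool.Agent.U475.PL.Asm2

/-!
The main theorem in terms of `N`.
-/

namespace Pool.Agent.U475.PL

open Finset Filter
open Pool.Agent.H442R2
open Pool.Agent.H442R2.KF
open Pool.Agent.W23.DC
open Pool.Agent.W23.PL

open Classical in
/-- the elements `p` of `A` such that `|a - p| = m s`, `m ≤ (log N)^U`, `s` an almost prime -/
noncomputable def Gd (N U : ℕ) (A : Finset ℕ) (a : ℤ) : Finset ℕ :=
  A.filter (fun p : ℕ => ∃ m s : ℕ, (a - p).natAbs = m * s ∧ (m : ℝ) ≤ Real.log N ^ U ∧ 1 < s ∧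
    s.primeFactorsList.length ≤ 2 ∧ ∀ q ∈ s.primeFactors, (N : ℝ) ^ (1 / 7 : ℝ) ≤ q)

open Classical in
/-- the primes with a large smooth part of `a - p` -/
noncomputable def Sm (N B u : ℕ) (ε₁ : ℝ) (a : ℤ) : Finset ℕ :=
  (Icc 1 N).filter (fun p : ℕ => p.Prime ∧ (p : ℤ) ≠ a ∧ xx (P1 N B ε₁) (p - a) = 1 ∧
      ∃ m : ℕ, m ∣ (a - p).natAbs ∧ (∀ l : ℕ, l.Prime → l ∣ m → (l : ℝ) < Real.log N ^ B) ∧
      Real.log N ^ (B * u) < m)

open Classical in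
/-- the covering of the primes of positive weight -/
theorem cover : ∃ N₀ : ℕ, ∀ N : ℕ, N₀ ≤ N → ∀ (ε₁ : ℝ) (B u : ℕ), 0 < ε₁ → ∀ A : Finset ℕ,
    (∀ p ∈ A, p.Prime ∧ p ≤ N) → ∀ a : ℤ, |a| ≤ (N : ℤ) →
    (((Aa (P1 N B ε₁) A a).filter (fun p : ℕ => 0 < Wf N ε₁ (a - (p : ℤ)).natAbs)).card : ℝ) ≤
      (Gd N (B * u) A a).card + 12 * (N : ℝ) ^ (6 / 7 : ℝ) + (Sm N B u ε₁ a).card +
        (2 * Real.log N ^ (B * u) + 1) := by
  obtain ⟨N₃, hN₃⟩ := struct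
  refine ⟨max N₃ 3, fun N hN ε₁ B u hε A hA a haz => ?_⟩
  have hNN₃ : N₃ ≤ N := (le_max_left _ _).trans hN
  have hN3 : 3 ≤ N := (le_max_right _ _).trans hN
  have hN2 : 2 ≤ N := by omega
  have hN1 : (1 : ℝ) < N := by exact_mod_cast (by omega : 1 < N)
  have hL : 0 < Real.log N := Real.log_pos hN1
  set B1 := A.filter (fun p : ℕ => (p : ℤ) ≠ a ∧ ∃ q : ℕ, q.Prime ∧ (N : ℝ) ^ (1 / 7 : ℝ) ≤ q ∧
      q ^ 2 ∣ (a - (p : ℤ)).natAbs) with hB1
  set B3 := A.filter (fun p : ℕ => ((a - (p : ℤ)).natAbs : ℝ) ≤ Real.log N ^ (B * u)) with hB3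
  have hcover : (Aa (P1 N B ε₁) A a).filter (fun p : ℕ => 0 < Wf N ε₁ (a - (p : ℤ)).natAbs) ⊆
      ((Gd N (B * u) A a ∪ B1) ∪ Sm N B u ε₁ a) ∪ B3 := by
    intro p hp
    rw [mem_filter] at hp
    obtain ⟨hpAa, hpW⟩ := hp
    unfold Aa at hpAa
    rw [mem_filter] at hpAa
    obtain ⟨hpA, hpx⟩ := hpAa
    by_contra hno
    simp only [mem_union, not_or] at hno
    obtain ⟨⟨⟨g1, g2⟩, g3⟩, g4⟩ := hno
    have hε0 : (0 : ℝ) ≤ Real.log N ^ (B * u) := by positivity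
    have hpa : (p : ℤ) ≠ a := by
      rintro rfl
      apply g4
      rw [hB3, mem_filter]
      exact ⟨hpA, by simpa using hε0⟩
    have hn0 : (a - (p : ℤ)).natAbs ≠ 0 := by
      rw [Ne, Int.natAbs_eq_zero]
      omega
    have hn2 : (a - (p : ℤ)).natAbs ≤ 2 * N := by
      have h3 := abs_le.1 haz
      have h4 := (hA p hpA).2
      omega
    obtain ⟨m, s, hms, hm, hs2, hs3⟩ := hN₃ N hNN₃ ε₁ _ hn0 hn2 hpW (fun q hq hqN hqd => by
      apply g2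
      rw [hB1, mem_filter]
      exact ⟨hpA, hpa, q, hq, hqN, hqd⟩)
    have hm' : ∀ l : ℕ, l.Prime → l ∣ m → (l : ℝ) < Real.log N ^ B := by
      intro l hl hlm
      by_contra hge
      rw [not_lt] at hge
      have h1 : ∀ p' ∈ P1 N B ε₁, ¬ (p' : ℤ) ∣ ((p : ℤ) - a) := by
        unfold xx at hpx
        by_contra hc
        rw [if_neg hc] at hpx
        exact zero_ne_one hpx
      refine h1 l ?_ ?_
      · unfold P1
        rw [mem_filter, mem_Icc]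
        have hlt := hm l hl hlm
        have ht : tt N l < ε₁ := (tt_lt_iff hN2 hl.pos _).2 hlt
        have hl2 : l ≤ (a - (p : ℤ)).natAbs :=
          Nat.le_of_dvd (Nat.pos_of_ne_zero hn0) (hms ▸ hlm.mul_right s)
        refine ⟨⟨hl.pos, ?_⟩, hl, hge, ht⟩
        -- `l ≤ N`: otherwise `l ≥ N^(1/7)`-type contradiction is not available, use `tt`
        by_contra hlN
        rw [not_le] at hlN
        have h5 : (1 : ℝ) < tt N l := by
          unfold tt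
          rw [lt_div_iff₀ hL, one_mul]
          exact Real.log_lt_log (by linarith) (by exact_mod_cast hlN)
        -- the prime `l` is at least `N ^ (1/7)`, so it divides `s`, and its square divides the number
        have h6 : (N : ℝ) ^ (1 / 7 : ℝ) ≤ l := by
          refine (le_tt_iff hN2 hl.pos _).1 ?_
          linarith
        have h7 : l = (a - (p : ℤ)).natAbs := by
          obtain ⟨t, ht⟩ := hms ▸ hlm.mul_right s
          have h8 : t ≠ 0 := by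
            rintro rfl
            exact hn0 (by rw [ht, mul_zero])
          have h9 : t < 2 := by
            by_contra hge2
            have : l * 2 ≤ l * t := Nat.mul_le_mul_left l (by omega)
            omega
          have h10 : t = 1 := by omega
          rw [ht, h10, mul_one]
        -- then `|a - p|` is a prime, `m = 1 * l`: the pair `(1, l)` is a representation
        apply g1
        unfold Gd
        rw [mem_filter]
        refine ⟨hpA, 1, l, by rw [one_mul]; exact h7.symm, ?_, hl.one_lt, ?_, ?_⟩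
        · have : (1 : ℝ) ≤ Real.log N := by
            have h11 : Real.log (3 : ℝ) ≤ Real.log N := Real.log_le_log (by norm_num) (by exact_mod_cast hN3)
            have h12 : (1 : ℝ) ≤ Real.log 3 := by
              rw [Real.le_log_iff_exp_le (by norm_num)]
              linarith [Real.exp_one_lt_d9]
            linarith
          rw [Nat.cast_one]
          exact one_le_pow₀ this
        · rw [Nat.primeFactorsList_prime hl]
          simp
        · intro q hq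
          rw [Nat.Prime.primeFactors hl, mem_singleton] at hq
          rw [hq]
          exact h6
      · have h2 : (l : ℤ) ∣ (a - (p : ℤ)) := Int.natCast_dvd.2 (hms ▸ hlm.mul_right s)
        have h3 : ((p : ℤ) - a) = -(a - (p : ℤ)) := by ring
        rw [h3]
        exact (dvd_neg).2 h2
    have hmN : (m : ℝ) ≤ Real.log N ^ (B * u) := by
      by_contra hlt
      rw [not_le] at hlt
      apply g3
      unfold Sm
      rw [mem_filter, mem_Icc]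
      exact ⟨⟨(hA p hpA).1.pos, (hA p hpA).2⟩, (hA p hpA).1, hpa, hpx, m, ⟨s, hms⟩, hm', hlt⟩
    have hs1 : 1 < s := by
      by_contra hle
      have hs0 : s ≠ 0 := by
        rintro rfl
        exact hn0 (by rw [hms, mul_zero])
      have hs1 : s = 1 := by omega
      apply g4
      rw [hB3, mem_filter, hms, hs1, mul_one]
      exact ⟨hpA, hmN⟩
    apply g1
    unfold Gd
    rw [mem_filter]
    exact ⟨hpA, m, s, hms, hmN, hs1, hs2, hs3⟩
  have hcard : (((Aa (P1 N B ε₁) A a).filter (fun p : ℕ => 0 < Wf N ε₁ (a - (p : ℤ)).natAbs)).card : ℝ) ≤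
      (Gd N (B * u) A a).card + B1.card + (Sm N B u ε₁ a).card + B3.card := by
    have h1 := (Finset.card_le_card hcover).trans (Finset.card_union_le _ _)
    have h2 := Finset.card_union_le (Gd N (B * u) A a ∪ B1) (Sm N B u ε₁ a)
    have h3 := Finset.card_union_le (Gd N (B * u) A a) B1
    have h4 : ((Aa (P1 N B ε₁) A a).filter (fun p : ℕ => 0 < Wf N ε₁ (a - (p : ℤ)).natAbs)).card ≤
        (Gd N (B * u) A a).card + B1.card + (Sm N B u ε₁ a).card + B3.card := by omega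
    exact_mod_cast h4
  have hb1 : (B1.card : ℝ) ≤ 12 * (N : ℝ) ^ (6 / 7 : ℝ) :=
    squares hN2 A (fun p hp => (hA p hp).2) a haz
  have hb3 : (B3.card : ℝ) ≤ 2 * Real.log N ^ (B * u) + 1 := close A a _ (by positivity)
  linarith

open Classical in
/-- the theorem in terms of `N` -/
theorem main_N (hPT : St_PT) (hLN : St_LN) (hER : St_ER) (hMI : St_MI) (hMT : St_MT)
    (hMP : St_MP) (hFA : St_FA) (hNU : St_NU) (hSFX : St_SFX) (hFIX : St_FIX) (hBX0 : St_BX0)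
    (hSMO : St_SMO) (hVLB : St_VLB) (δ : ℝ) (hδ : 0 < δ) :
    ∃ (c K : ℝ) (U N₀ : ℕ), 0 < c ∧ 0 < K ∧ ∀ N : ℕ, N₀ ≤ N → ∀ A : Finset ℕ,
      (∀ p ∈ A, p.Prime ∧ p ≤ N) → δ * (N / Real.log N) ≤ A.card →
      (((Icc (-(N : ℤ)) N).filter (fun a : ℤ => (a ≠ 0 ∧ |(a : ℝ)| ≤ N - (N : ℝ) ^ (1 / 2 : ℝ)) ∧
        ((Gd N U A a).card : ℝ) < c * (Real.log (Real.log N) / Real.log N) * A.card)).card : ℝ) ≤
          K * (Real.log N / Real.log (Real.log N)) := by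
  obtain ⟨A0, F, f, hS⟩ := hSFX
  obtain ⟨c₀, hc₀, H1⟩ := lowerS hPT hLN hER hMI hMT hMP hFA hNU A0 F f hS
  obtain ⟨c₂, hc₂, H5⟩ := hVLB
  obtain ⟨e1, he1, H3⟩ := hFIX (111 / 200) (1 / 500) 1 (by norm_num) (by norm_num) (by norm_num)
    one_pos
  obtain ⟨e2, he2, H4⟩ := hBX0 1 one_pos
  obtain ⟨ε₁, hε₁, hε₁a, hε₁b, hε₁c, hε₁d, hε₁e⟩ := choose_eps (c₀ * δ / 48) (δ / 2) e1 e2
    (by positivity) (by positivity) he1 he2
  obtain ⟨N₁, hN₁⟩ := H1 ε₁ hε₁ hε₁a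
  obtain ⟨C3, hC3, H3⟩ := H3 ε₁ hε₁ hε₁b
  obtain ⟨N₃, hN₃⟩ := H3 40 le_rfl
  obtain ⟨C4, hC4, H4⟩ := H4 ε₁ hε₁ hε₁c
  obtain ⟨N₄, hN₄⟩ := H4 40 le_rfl
  obtain ⟨N₅, hN₅⟩ := H5 40 (by norm_num) ε₁ hε₁ (by linarith)
  obtain ⟨C6, hC6, H6⟩ := hSMO 40 (by norm_num) ε₁ hε₁ (by linarith)
  obtain ⟨u, hu1, hu2⟩ : ∃ u : ℕ, 1 ≤ u ∧ C6 * Real.exp (-(u : ℝ)) ≤ c₀ * ε₁ * δ / 16 := by
    have h1 : Tendsto (fun u : ℕ => C6 * Real.exp (-(u : ℝ))) atTop (nhds (C6 * 0)) :=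
      (Real.tendsto_exp_neg_atTop_nhds_zero.comp (tendsto_natCast_atTop_atTop (R := ℝ))).const_mul C6
    rw [mul_zero] at h1
    obtain ⟨u, hu, hu'⟩ := ((h1.eventually_le_const (show (0 : ℝ) < c₀ * ε₁ * δ / 16 by positivity)).and
      (eventually_ge_atTop 1)).exists
    exact ⟨u, hu', hu⟩
  obtain ⟨N₆, hN₆⟩ := H6 u hu1
  obtain ⟨N₇, hN₇⟩ := cover
  obtain ⟨N₈, hN₈⟩ := growth (c₀ * ε₁ * δ / 16 * (c₂ * 40 / ε₁)) (by positivity) (40 * u)
  set κ : ℝ := c₀ * δ / 48 * ε₁ with hκ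
  set κ₀ : ℝ := δ / 2 with hκ₀
  have hκ0 : 0 < κ := by positivity
  have hκ₀0 : 0 < κ₀ := by positivity
  set Kc : ℝ := (2 * C3 / κ ^ 2 + 2 * C4 / κ₀ ^ 2) * (ε₁ / (c₂ * 40)) with hKc
  refine ⟨c₀ * ε₁ / 4 * (c₂ * 40 / ε₁), Kc, 40 * u,
    max (max (max N₁ N₃) (max N₄ N₅)) (max (max N₆ N₇) (max N₈ 3)), by positivity, by positivity, ?_⟩
  intro N hN A hA hAc
  simp only [max_le_iff] at hN
  obtain ⟨⟨⟨hNN₁, hNN₃⟩, hNN₄, hNN₅⟩, ⟨hNN₆, hNN₇⟩, hNN₈, hN3⟩ := hN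
  have hN2 : 2 ≤ N := by omega
  have hN1 : (1 : ℝ) < N := by exact_mod_cast (by omega : 1 < N)
  have hN0 : (0 : ℝ) < N := by linarith
  obtain ⟨hgr, hLL, hL1⟩ := hN₈ N hNN₈
  have hL : 0 < Real.log N := by linarith
  have hLL0 : 0 < Real.log (Real.log N) := by linarith
  set Q : ℝ := (N : ℝ) / Real.log N with hQ
  have hQ0 : 0 < Q := by positivity
  set V : ℝ := VV (P1 N 40 ε₁) with hV
  have hVl : c₂ * 40 / ε₁ * (Real.log (Real.log N) / Real.log N) ≤ V := by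
    have := (hN₅ N hNN₅).1
    refine le_trans (le_of_eq ?_) this
    push_cast
    field_simp
  have hV0 : 0 < V := lt_of_lt_of_le (by positivity) hVl
  set S : Finset ℤ := (Icc (-(N : ℤ)) N).filter (fun a : ℤ => a ≠ 0 ∧
    |(a : ℝ)| ≤ N - (N : ℝ) ^ (1 / 2 : ℝ)) with hSd
  have hS1 : ∀ a ∈ S, a ≠ 0 ∧ |(a : ℝ)| ≤ N - (N : ℝ) ^ (1 / 2 : ℝ) := fun a ha =>
    (mem_filter.1 ha).2
  have hS2 : ∀ a ∈ S, |a| ≤ (N : ℤ) := fun a ha => abs_le.2 (mem_Icc.1 (mem_filter.1 ha).1)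
  have hS3 : ∀ a ∈ S, |(a : ℝ)| ≤ N := fun a ha => by
    have := hS2 a ha
    exact_mod_cast this
  -- the two kinds of bad integers
  set E₁ : ℤ → ℝ := fun a => ∑ d ∈ facS N (111 / 200) ε₁ (1 / 500),
    |BX.Df (fun p => fA A p * xx (P1 N 40 ε₁) (p - a)) N a d| with hE₁
  set E₂ : ℤ → ℝ := fun a => ∑ p ∈ (Icc 1 N).filter Nat.Prime,
        fA A p * (xx (P1 N 40 ε₁) (p - a) - VV (P1 N 40 ε₁)) with hE₂
  have hE1c : ((S.filter (fun a => κ * V * Q < |E₁ a|)).card : ℝ) ≤ 2 * C3 / (κ ^ 2 * V) := by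
    refine few_of (ρ := Real.exp (-(1 / ε₁))) hQ0 hV0 hκ0 hε₁d (fun 𝒜 h𝒜 => ?_)
    exact hN₃ N hNN₃ (fA A) (fA_le A) 𝒜 (fun a ha => hS1 a (h𝒜 ha))
  have hE2c : ((S.filter (fun a => κ₀ * V * Q < |E₂ a|)).card : ℝ) ≤ 2 * C4 / (κ₀ ^ 2 * V) := by
    refine few_of (ρ := Real.exp (-(1 / ε₁))) hQ0 hV0 hκ₀0 hε₁e (fun 𝒜 h𝒜 => ?_)
    exact hN₄ N hNN₄ (fA A) (fA_le A) 𝒜 (fun a ha => ⟨(hS1 a (h𝒜 ha)).1, hS3 a (h𝒜 ha)⟩)
  -- the exceptional integers are bad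
  have hsub : (Icc (-(N : ℤ)) N).filter (fun a : ℤ => (a ≠ 0 ∧ |(a : ℝ)| ≤ N - (N : ℝ) ^ (1 / 2 : ℝ)) ∧
        ((Gd N (40 * u) A a).card : ℝ) <
          c₀ * ε₁ / 4 * (c₂ * 40 / ε₁) * (Real.log (Real.log N) / Real.log N) * A.card) ⊆
      S.filter (fun a => κ * V * Q < |E₁ a|) ∪ S.filter (fun a => κ₀ * V * Q < |E₂ a|) := by
    intro a ha
    rw [mem_filter] at ha
    obtain ⟨haI, haS, hag⟩ := ha
    have haS' : a ∈ S := by
      rw [hSd, mem_filter]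
      exact ⟨haI, haS⟩
    by_contra hno
    rw [mem_union, not_or] at hno
    have b1 : |E₁ a| ≤ κ * V * Q := not_lt.1 fun hc => hno.1 (mem_filter.2 ⟨haS', hc⟩)
    have b2 : |E₂ a| ≤ κ₀ * V * Q := not_lt.1 fun hc => hno.2 (mem_filter.2 ⟨haS', hc⟩)
    have hE1n : 0 ≤ E₁ a := Finset.sum_nonneg fun _ _ => abs_nonneg _
    rw [abs_of_nonneg hE1n] at b1
    have hE2e : E₂ a = (Aa (P1 N 40 ε₁) A a).card - V * A.card := card_Aa hA _ _ a
    rw [hE2e] at b2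
    have b3 := (abs_le.1 b2).1
    have hAa : ∀ p ∈ Aa (P1 N 40 ε₁) A a, p.Prime ∧ p ≤ N := fun p hp => hA p (mem_filter.1 hp).1
    have b4 := hN₁ N hNN₁ (Aa (P1 N 40 ε₁) A a) hAa a
    have b5 : ∑ d ∈ facS N (111 / 200) ε₁ (1 / 500), |BX.Df (fA (Aa (P1 N 40 ε₁) A a)) N a d| = E₁ a := by
      rw [hE₁]
      apply Finset.sum_congr rfl
      intro d _
      congr 2
      funext p
      exact (fA_Aa _ _ _ _).symm
    rw [b5] at b4
    have b6 := sum_le_pos (N := N) (ε₁ := ε₁) (Aa (P1 N 40 ε₁) A a) (fun p : ℕ => (a - (p : ℤ)).natAbs)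
    have b7 := hN₇ N hNN₇ ε₁ 40 u hε₁ A hA a (hS2 a haS')
    have b8 : ((Sm N 40 u ε₁ a).card : ℝ) ≤ C6 * Real.exp (-(u : ℝ)) * V * Q := by
      have := hN₆ N hNN₆ a haS.1 (hS3 a haS')
      unfold Sm
      convert this using 3
    have hVQ : 0 < V * Q := by positivity
    have b9 : C6 * Real.exp (-(u : ℝ)) * V * Q ≤ c₀ * ε₁ * δ / 16 * (V * Q) := by
      calc _ = C6 * Real.exp (-(u : ℝ)) * (V * Q) := by ring
        _ ≤ _ := mul_le_mul_of_nonneg_right hu2 hVQ.le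
    have b10 : 12 * (N : ℝ) ^ (6 / 7 : ℝ) + 2 * Real.log N ^ (40 * u) + 1 ≤ c₀ * ε₁ * δ / 16 * (V * Q) := by
      refine hgr.trans ?_
      calc c₀ * ε₁ * δ / 16 * (c₂ * 40 / ε₁) * (Real.log (Real.log N) / Real.log N) * Q
          = c₀ * ε₁ * δ / 16 * ((c₂ * 40 / ε₁ * (Real.log (Real.log N) / Real.log N)) * Q) := by ring
        _ ≤ _ := by gcongr
    have b11 : 3 * E₁ a ≤ c₀ * ε₁ * δ / 16 * (V * Q) := by
      calc 3 * E₁ a ≤ 3 * (κ * V * Q) := by linarith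
        _ = _ := by rw [hκ]; ring
    have b12 : δ * Q ≤ A.card := hAc
    have b13 : V * A.card / 2 ≤ (Aa (P1 N 40 ε₁) A a).card := by
      have h1 : κ₀ * V * Q ≤ V * A.card / 2 := by
        calc κ₀ * V * Q = V * (δ * Q) / 2 := by rw [hκ₀]; ring
          _ ≤ _ := by gcongr
      linarith
    have b14 : c₀ * ε₁ * (V * A.card / 2) ≤ c₀ * ε₁ * (Aa (P1 N 40 ε₁) A a).card := by gcongr
    have b15 : c₀ * ε₁ * δ / 16 * (V * Q) ≤ c₀ * ε₁ * (V * A.card) / 16 := by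
      calc _ = c₀ * ε₁ * (V * (δ * Q)) / 16 := by ring
        _ ≤ _ := by gcongr
    have b16 : c₀ * ε₁ / 4 * (c₂ * 40 / ε₁) * (Real.log (Real.log N) / Real.log N) * A.card ≤
        c₀ * ε₁ / 4 * (V * A.card) := by
      calc _ = c₀ * ε₁ / 4 * ((c₂ * 40 / ε₁ * (Real.log (Real.log N) / Real.log N)) * A.card) := by ring
        _ ≤ _ := by gcongr
    nlinarith
  have h1 := (Finset.card_le_card hsub).trans (Finset.card_union_le _ _)
  have h2 : (((Icc (-(N : ℤ)) N).filter (fun a : ℤ => (a ≠ 0 ∧ |(a : ℝ)| ≤ N - (N : ℝ) ^ (1 / 2 : ℝ)) ∧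
        ((Gd N (40 * u) A a).card : ℝ) <
          c₀ * ε₁ / 4 * (c₂ * 40 / ε₁) * (Real.log (Real.log N) / Real.log N) * A.card)).card : ℝ) ≤
      2 * C3 / (κ ^ 2 * V) + 2 * C4 / (κ₀ ^ 2 * V) := by
    refine le_trans ?_ (add_le_add hE1c hE2c)
    exact_mod_cast h1
  refine h2.trans ?_
  have h3 : 2 * C3 / (κ ^ 2 * V) + 2 * C4 / (κ₀ ^ 2 * V) = (2 * C3 / κ ^ 2 + 2 * C4 / κ₀ ^ 2) * (1 / V) := by
    field_simp
  rw [h3]
  have h4 : 1 / V ≤ ε₁ / (c₂ * 40) * (Real.log N / Real.log (Real.log N)) := by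
    have h5 : ε₁ / (c₂ * 40) * (Real.log N / Real.log (Real.log N)) =
        1 / (c₂ * 40 / ε₁ * (Real.log (Real.log N) / Real.log N)) := by
      field_simp
    rw [h5]
    exact one_div_le_one_div_of_le (by positivity) hVl
  calc (2 * C3 / κ ^ 2 + 2 * C4 / κ₀ ^ 2) * (1 / V)
      ≤ (2 * C3 / κ ^ 2 + 2 * C4 / κ₀ ^ 2) * (ε₁ / (c₂ * 40) * (Real.log N / Real.log (Real.log N))) := by
        gcongr
    _ = _ := by rw [hKc]; ring

end Pool.Agent.U475.PL
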