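import Pool.Agent.U475.PL.Asm3

/-!
The main theorem in terms of `X`.
-/

namespace Pool.Agent.U475.PL

open Finset Filter
open Pool.Agent.H442R2
open Pool.Agent.H442R2.KF
open Pool.Agent.W23.DC
open Pool.Agent.W23.PL

/-- `|a - p| = m s`, `1 ≤ m ≤ (log X)^U`, `s > 1`, all prime factors of `s` exceed `X^(1/7)` -/
def Rep' (X U : ℕ) (a : ℤ) (p : ℕ) (R : ℕ → Prop) : Prop :=
  ∃ m s : ℕ, 1 ≤ m ∧ (m : ℝ) ≤ Real.log X ^ U ∧ 1 < s ∧ (a - p).natAbs = m * s ∧ R s ∧
    ∀ q : ℕ, q.Prime → q ∣ s → (X : ℝ) ^ (1 / 7 : ℝ) < q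

/-- at most two prime factors, counted with multiplicity -/
def AP2 (s : ℕ) : Prop := s.primeFactorsList.length ≤ 2

theorem ratio_ge_one {x : ℝ} (hx : 1 < Real.log x) : 1 ≤ Real.log x / Real.log (Real.log x) := by
  have h1 : 0 < Real.log (Real.log x) := Real.log_pos hx
  rw [one_le_div h1]
  have := Real.log_le_sub_one_of_pos (show 0 < Real.log x by linarith)
  linarith

theorem one_lt_log3 {X : ℕ} (hX : 3 ≤ X) : 1 < Real.log X := by
  have h1 : Real.log (3 : ℝ) ≤ Real.log X := Real.log_le_log (by norm_num) (by exact_mod_cast hX)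
  have h2 : (1 : ℝ) < Real.log 3 := by
    rw [Real.lt_log_iff_exp_lt (by norm_num)]
    linarith [Real.exp_one_lt_d9]
  linarith

/-- many elements -/
theorem large_A (c δ : ℝ) (hc : 0 < c) (hδ : 0 < δ) : ∃ X₁ : ℕ, ∀ X : ℕ, X₁ ≤ X →
    1 ≤ c * (Real.log (Real.log X) / Real.log X) * (δ * X / Real.log X) ∧ 2 ≤ Real.log X ∧
      1 ≤ Real.log (Real.log X) := by
  obtain ⟨M, hM⟩ := growth (c * δ) (by positivity) 0
  have h1 : ∀ᶠ x : ℝ in atTop, 2 ≤ Real.log x := Real.tendsto_log_atTop.eventually_ge_atTop 2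
  obtain ⟨M2, hM2⟩ := eventually_atTop.1 ((tendsto_natCast_atTop_atTop (R := ℝ)).eventually h1)
  refine ⟨max M M2, fun X hX => ?_⟩
  obtain ⟨h2, h3, h4⟩ := hM X ((le_max_left _ _).trans hX)
  have h5 := hM2 X ((le_max_right _ _).trans hX)
  refine ⟨?_, h5, h3⟩
  have h6 : 0 ≤ 12 * (X : ℝ) ^ (6 / 7 : ℝ) := by positivity
  rw [pow_zero] at h2
  calc (1 : ℝ) ≤ c * δ * (Real.log (Real.log X) / Real.log X) * (X / Real.log X) := by linarith
    _ = _ := by ring

open Classical in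
/-- the theorem in terms of `X` -/
theorem main_X (hN : ∀ δ : ℝ, 0 < δ → ∃ (c K : ℝ) (U N₀ : ℕ), 0 < c ∧ 0 < K ∧ ∀ N : ℕ, N₀ ≤ N →
      ∀ A : Finset ℕ, (∀ p ∈ A, p.Prime ∧ p ≤ N) → δ * (N / Real.log N) ≤ A.card →
      (((Icc (-(N : ℤ)) N).filter (fun a : ℤ => (a ≠ 0 ∧ |(a : ℝ)| ≤ N - (N : ℝ) ^ (1 / 2 : ℝ)) ∧
        ((Gd N U A a).card : ℝ) < c * (Real.log (Real.log N) / Real.log N) * A.card)).card : ℝ) ≤
          K * (Real.log N / Real.log (Real.log N))) (δ : ℝ) (hδ : 0 < δ) :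
    ∃ (c K : ℝ) (U : ℕ), 0 < c ∧ 0 < K ∧ ∀ X : ℕ, 3 ≤ X → ∀ A : Finset ℕ,
      (∀ p ∈ A, p.Prime ∧ p ≤ X) → δ * X / Real.log X ≤ A.card →
      (((Icc (-(2 * X : ℤ)) (2 * X)).filter (fun a : ℤ =>
        ((A.filter (fun p => Rep' X U a p AP2)).card : ℝ) <
          c * (Real.log (Real.log X) / Real.log X) * A.card)).card : ℝ) ≤
            K * (Real.log X / Real.log (Real.log X)) := by
  obtain ⟨c, K, U, N₀, hc, hK, H⟩ := hN (δ / 3) (by positivity)
  obtain ⟨X₁, hX₁⟩ := large_A (c / 4) δ (by positivity) hδ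
  refine ⟨c / 4, max (2 * K + 1) (4 * (max N₀ X₁ : ℕ) + 1), 2 * U, by positivity,
    lt_of_lt_of_le (by positivity) (le_max_left _ _), ?_⟩
  intro X hX A hA hAc
  have hLX1 := one_lt_log3 hX
  have hrat := ratio_ge_one hLX1
  have hLLX : 0 < Real.log (Real.log X) := Real.log_pos hLX1
  have hLX0 : 0 < Real.log X := by linarith
  rcases lt_or_ge X (max N₀ X₁) with hlt | hge
  · have h1 : (((Icc (-(2 * X : ℤ)) (2 * X)).filter (fun a : ℤ =>
        ((A.filter (fun p => Rep' X (2 * U) a p AP2)).card : ℝ) <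
          c / 4 * (Real.log (Real.log X) / Real.log X) * A.card)).card : ℝ) ≤
          4 * (max N₀ X₁ : ℕ) + 1 := by
      have h2 : ((Icc (-(2 * X : ℤ)) (2 * X)).filter (fun a : ℤ =>
        ((A.filter (fun p => Rep' X (2 * U) a p AP2)).card : ℝ) <
          c / 4 * (Real.log (Real.log X) / Real.log X) * A.card)).card ≤ 4 * (max N₀ X₁) + 1 := by
        refine (Finset.card_filter_le _ _).trans ?_
        rw [Int.card_Icc]
        omega
      exact_mod_cast h2
    refine h1.trans ?_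
    have h3 : (4 * (max N₀ X₁ : ℕ) + 1 : ℝ) ≤ max (2 * K + 1) (4 * (max N₀ X₁ : ℕ) + 1) :=
      le_max_right _ _
    have h4 : (0 : ℝ) ≤ 4 * (max N₀ X₁ : ℕ) + 1 := by positivity
    calc (4 * (max N₀ X₁ : ℕ) + 1 : ℝ) ≤ max (2 * K + 1) (4 * (max N₀ X₁ : ℕ) + 1) * 1 := by
          rw [mul_one]
          exact h3
      _ ≤ _ := mul_le_mul_of_nonneg_left hrat (h4.trans h3)
  have hXN : N₀ ≤ X := (le_max_left _ _).trans hge
  have hXX : X₁ ≤ X := (le_max_right _ _).trans hge
  obtain ⟨hbig, hL2, hLL1⟩ := hX₁ X hXX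
  have hX3 : (3 : ℝ) ≤ X := by exact_mod_cast hX
  have hX0 : (0 : ℝ) < X := by linarith
  -- the scale `N = 3 X`
  have hcast : ((3 * X : ℕ) : ℝ) = 3 * X := by push_cast; ring
  have hlogN1 : Real.log X ≤ Real.log ((3 * X : ℕ) : ℝ) := by
    rw [hcast]
    exact Real.log_le_log hX0 (by linarith)
  have hlogN2 : Real.log ((3 * X : ℕ) : ℝ) ≤ 2 * Real.log X := by
    rw [hcast, Real.log_mul (by norm_num) hX0.ne']
    have : Real.log 3 ≤ Real.log X := Real.log_le_log (by norm_num) hX3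
    linarith
  have hLN0 : 0 < Real.log ((3 * X : ℕ) : ℝ) := by linarith
  have hLLN1 : Real.log (Real.log X) ≤ Real.log (Real.log ((3 * X : ℕ) : ℝ)) :=
    Real.log_le_log hLX0 hlogN1
  have hLLN0 : 0 < Real.log (Real.log ((3 * X : ℕ) : ℝ)) := by linarith
  have hA3 : δ / 3 * (((3 * X : ℕ) : ℝ) / Real.log ((3 * X : ℕ) : ℝ)) ≤ A.card := by
    refine le_trans ?_ hAc
    calc δ / 3 * (((3 * X : ℕ) : ℝ) / Real.log ((3 * X : ℕ) : ℝ)) =
          δ * X / Real.log ((3 * X : ℕ) : ℝ) := by rw [hcast]; ring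
      _ ≤ δ * X / Real.log X := div_le_div_of_nonneg_left (by positivity) hLX0 hlogN1
  have key := H (3 * X) (by omega) A (fun p hp => ⟨(hA p hp).1, by
    have := (hA p hp).2
    omega⟩) hA3
  have hsub : (Icc (-(2 * X : ℤ)) (2 * X)).filter (fun a : ℤ =>
        ((A.filter (fun p => Rep' X (2 * U) a p AP2)).card : ℝ) <
          c / 4 * (Real.log (Real.log X) / Real.log X) * A.card) ⊆
      insert 0 ((Icc (-((3 * X : ℕ) : ℤ)) ((3 * X : ℕ) : ℤ)).filter (fun a : ℤ =>
        (a ≠ 0 ∧ |(a : ℝ)| ≤ ((3 * X : ℕ) : ℝ) - ((3 * X : ℕ) : ℝ) ^ (1 / 2 : ℝ)) ∧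
        ((Gd (3 * X) U A a).card : ℝ) <
          c * (Real.log (Real.log ((3 * X : ℕ) : ℝ)) / Real.log ((3 * X : ℕ) : ℝ)) * A.card)) := by
    intro a ha
    rw [mem_filter, mem_Icc] at ha
    obtain ⟨⟨ha1, ha2⟩, ha3⟩ := ha
    rw [mem_insert]
    by_cases h0 : a = 0
    · exact Or.inl h0
    right
    rw [mem_filter, mem_Icc]
    have ha4 : |(a : ℝ)| ≤ 2 * X := by
      rw [abs_le]
      constructor
      · exact_mod_cast ha1
      · exact_mod_cast ha2
    have hsq : (((3 * X : ℕ) : ℝ)) ^ (1 / 2 : ℝ) ≤ X := by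
      rw [hcast, ← Real.sqrt_eq_rpow]
      rw [Real.sqrt_le_left hX0.le]
      nlinarith
    refine ⟨⟨by push_cast; omega, by push_cast; omega⟩, ⟨h0, ?_⟩, ?_⟩
    · rw [hcast] at hsq ⊢
      linarith
    · -- compare the numbers of representations
      have hsub2 : Gd (3 * X) U A a ⊆ insert a.toNat (A.filter (fun p => Rep' X (2 * U) a p AP2)) := by
        intro p hp
        unfold Gd at hp
        rw [mem_filter] at hp
        obtain ⟨hpA, m, s, h1, h2, h3, h4, h5⟩ := hp
        rw [mem_insert]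
        rcases Nat.eq_zero_or_pos m with hm | hm
        · left
          subst hm
          rw [Nat.zero_mul, Int.natAbs_eq_zero] at h1
          omega
        · right
          rw [mem_filter]
          refine ⟨hpA, m, s, hm, ?_, h3, h1, h4, fun q hq hqs => ?_⟩
          · refine h2.trans ?_
            calc Real.log ((3 * X : ℕ) : ℝ) ^ U ≤ (Real.log X ^ 2) ^ U := by
                  apply pow_le_pow_left₀ hLN0.le
                  nlinarith
              _ = Real.log X ^ (2 * U) := by rw [← pow_mul]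
          · have h6 := h5 q (Nat.mem_primeFactors.2 ⟨hq, hqs, by omega⟩)
            refine lt_of_lt_of_le ?_ h6
            apply Real.rpow_lt_rpow hX0.le _ (by norm_num)
            rw [hcast]
            linarith
      have h7 : ((Gd (3 * X) U A a).card : ℝ) ≤ (A.filter (fun p => Rep' X (2 * U) a p AP2)).card + 1 := by
        exact_mod_cast (Finset.card_le_card hsub2).trans (Finset.card_insert_le _ _)
      have h8 : Real.log (Real.log X) / (2 * Real.log X) ≤
          Real.log (Real.log ((3 * X : ℕ) : ℝ)) / Real.log ((3 * X : ℕ) : ℝ) :=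
        div_le_div₀ hLLN0.le hLLN1 hLN0 hlogN2
      have h9 : c / 2 * (Real.log (Real.log X) / Real.log X) * A.card ≤
          c * (Real.log (Real.log ((3 * X : ℕ) : ℝ)) / Real.log ((3 * X : ℕ) : ℝ)) * A.card := by
        calc c / 2 * (Real.log (Real.log X) / Real.log X) * A.card =
            c * (Real.log (Real.log X) / (2 * Real.log X)) * A.card := by field_simp
          _ ≤ _ := by gcongr
      have h10 : 1 ≤ c / 4 * (Real.log (Real.log X) / Real.log X) * A.card := by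
        refine hbig.trans ?_
        gcongr
      have h11 : c / 2 * (Real.log (Real.log X) / Real.log X) * A.card =
          c / 4 * (Real.log (Real.log X) / Real.log X) * A.card +
          c / 4 * (Real.log (Real.log X) / Real.log X) * A.card := by ring
      linarith
  have h1 := (Finset.card_le_card hsub).trans (Finset.card_insert_le _ _)
  have h2 : (((Icc (-(2 * X : ℤ)) (2 * X)).filter (fun a : ℤ =>
        ((A.filter (fun p => Rep' X (2 * U) a p AP2)).card : ℝ) <
          c / 4 * (Real.log (Real.log X) / Real.log X) * A.card)).card : ℝ) ≤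
      K * (Real.log ((3 * X : ℕ) : ℝ) / Real.log (Real.log ((3 * X : ℕ) : ℝ))) + 1 := by
    refine le_trans ?_ (add_le_add_left key 1)
    exact_mod_cast h1
  refine h2.trans ?_
  have h3 : Real.log ((3 * X : ℕ) : ℝ) / Real.log (Real.log ((3 * X : ℕ) : ℝ)) ≤
      2 * Real.log X / Real.log (Real.log X) :=
    div_le_div₀ (by positivity) hlogN2 hLLX hLLN1
  calc K * (Real.log ((3 * X : ℕ) : ℝ) / Real.log (Real.log ((3 * X : ℕ) : ℝ))) + 1
      ≤ K * (2 * Real.log X / Real.log (Real.log X)) + Real.log X / Real.log (Real.log X) := by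
        gcongr
    _ = (2 * K + 1) * (Real.log X / Real.log (Real.log X)) := by ring
    _ ≤ _ := by
        apply mul_le_mul_of_nonneg_right (le_max_left _ _)
        linarith

end Pool.Agent.U475.PL
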