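import Pool.Agent.U475.PL.Asm4

/-!
The number of exceptions is sharp.
-/

namespace Pool.Agent.U475.PL

open Finset Filter
open Pool.Agent.H442R2
open Pool.Agent.H442R2.KF
open Pool.Agent.W23.DC
open Pool.Agent.W23.PL

/-- the sieve condition for representable numbers -/
theorem xx_of_rep {X U : ℕ} (hX : 128 ≤ X) {a : ℤ} {p : ℕ}
    (h : Rep' X U a p (fun _ => True)) :
    xx (P1 (2 * X) (U + 1) (1 / 8)) ((p : ℤ) - a) = 1 := by
  classical
  obtain ⟨m, s, hm, hmU, hs, hms, -, hq⟩ := h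
  have hX128 : (128 : ℝ) ≤ X := by exact_mod_cast hX
  have hX0 : (0 : ℝ) < X := by linarith
  have hcast : ((2 * X : ℕ) : ℝ) = 2 * X := by push_cast; ring
  have hL1 : 1 < Real.log X := one_lt_log3 (by omega)
  have hLN : Real.log X < Real.log ((2 * X : ℕ) : ℝ) := by
    rw [hcast]
    exact Real.log_lt_log hX0 (by linarith)
  unfold xx
  rw [if_pos]
  intro l hl hdvd
  unfold P1 at hl
  rw [mem_filter, mem_Icc] at hl
  obtain ⟨⟨hl1, hl2⟩, hlp, hlB, hlt⟩ := hl
  have h1 : l ∣ (a - (p : ℤ)).natAbs := by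
    rw [← Int.natCast_dvd]
    have h3 : a - (p : ℤ) = -((p : ℤ) - a) := by ring
    rw [h3]
    exact (dvd_neg).2 hdvd
  rw [hms] at h1
  rcases (hlp.dvd_mul).1 h1 with h2 | h2
  · have h3 : (l : ℝ) ≤ m := by exact_mod_cast Nat.le_of_dvd (by omega) h2
    have h4 : Real.log X ^ U ≤ Real.log ((2 * X : ℕ) : ℝ) ^ U :=
      pow_le_pow_left₀ (by linarith) hLN.le _
    have h5 : Real.log ((2 * X : ℕ) : ℝ) ^ U < Real.log ((2 * X : ℕ) : ℝ) ^ (U + 1) :=
      pow_lt_pow_right₀ (by linarith) (by omega)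
    linarith
  · have h3 := hq l hlp h2
    have h4 : (l : ℝ) < ((2 * X : ℕ) : ℝ) ^ (1 / 8 : ℝ) :=
      (tt_lt_iff (by omega) hlp.pos _).1 hlt
    have h5 : ((2 * X : ℕ) : ℝ) ^ (1 / 8 : ℝ) ≤ (X : ℝ) ^ (1 / 7 : ℝ) := by
      have h6 : ((2 * X : ℕ) : ℝ) ≤ (X : ℝ) ^ (8 / 7 : ℝ) := by
        rw [hcast]
        have h7 : (2 : ℝ) ≤ (X : ℝ) ^ (1 / 7 : ℝ) := by
          have h8 : (2 : ℝ) = (128 : ℝ) ^ (1 / 7 : ℝ) := by
            have : (128 : ℝ) = 2 ^ (7 : ℝ) := by norm_num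
            rw [this, ← Real.rpow_mul (by norm_num)]
            norm_num
          rw [h8]
          exact Real.rpow_le_rpow (by norm_num) hX128 (by norm_num)
        calc 2 * (X : ℝ) ≤ (X : ℝ) ^ (1 / 7 : ℝ) * (X : ℝ) ^ (1 : ℝ) := by
              rw [Real.rpow_one]
              gcongr
          _ = (X : ℝ) ^ (8 / 7 : ℝ) := by
              rw [← Real.rpow_add hX0]
              norm_num
      calc ((2 * X : ℕ) : ℝ) ^ (1 / 8 : ℝ) ≤ ((X : ℝ) ^ (8 / 7 : ℝ)) ^ (1 / 8 : ℝ) :=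
            Real.rpow_le_rpow (by positivity) h6 (by norm_num)
        _ = (X : ℝ) ^ (1 / 7 : ℝ) := by
            rw [← Real.rpow_mul hX0.le]
            norm_num
    linarith

open Classical in
/-- an upper bound for the number of representations -/
theorem upper (hUBS : St_UBS) (hVLB : St_VLB) (U : ℕ) : ∃ (C : ℝ) (X₀ : ℕ), 0 < C ∧
    ∀ X : ℕ, X₀ ≤ X → ∀ a : ℤ, a ≠ 0 → |(a : ℝ)| ≤ 2 * X →
      (((Icc 1 X).filter (fun p : ℕ => p.Prime ∧ Rep' X U a p (fun _ => True))).card : ℝ) ≤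
        C * (X / Real.log X) * (Real.log (Real.log X) / Real.log X) := by
  obtain ⟨c₂, hc₂, H5⟩ := hVLB
  obtain ⟨N₅, hN₅⟩ := H5 (U + 2) (by omega) (1 / 8) (by norm_num) (by norm_num)
  obtain ⟨C, N₂, hC, H⟩ := hUBS (U + 2) (by omega) (1 / 8) (by norm_num) (by norm_num)
  obtain ⟨X₁, hX₁⟩ := large_A 1 1 one_pos one_pos
  refine ⟨C * 2 * (1 / c₂ * (8 * (U + 2)) * 2), max (max N₅ N₂) (max X₁ 128), by positivity, ?_⟩
  intro X hX a ha ha2
  simp only [max_le_iff] at hX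
  obtain ⟨⟨hX5, hX2⟩, hXX, hX128⟩ := hX
  obtain ⟨-, hL2, hLL1⟩ := hX₁ X hXX
  have hXr : (128 : ℝ) ≤ X := by exact_mod_cast hX128
  have hX0 : (0 : ℝ) < X := by linarith
  have hcast : ((2 * X : ℕ) : ℝ) = 2 * X := by push_cast; ring
  have hLX0 : 0 < Real.log X := by linarith
  have hlogN1 : Real.log X ≤ Real.log ((2 * X : ℕ) : ℝ) := by
    rw [hcast]
    exact Real.log_le_log hX0 (by linarith)
  have hlogN2 : Real.log ((2 * X : ℕ) : ℝ) ≤ 2 * Real.log X := by
    rw [hcast, Real.log_mul (by norm_num) hX0.ne']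
    have : Real.log 2 ≤ Real.log X := Real.log_le_log (by norm_num) (by linarith)
    linarith
  have hLN0 : 0 < Real.log ((2 * X : ℕ) : ℝ) := by linarith
  have hLLN : Real.log (Real.log ((2 * X : ℕ) : ℝ)) ≤ 2 * Real.log (Real.log X) := by
    have h1 : Real.log ((2 * X : ℕ) : ℝ) ≤ Real.log X ^ 2 := by nlinarith
    have h2 := Real.log_le_log hLN0 h1
    rw [Real.log_pow] at h2
    rw [hcast] at h2 ⊢
    push_cast at h2
    exact h2
  have hLLN0 : 0 ≤ Real.log (Real.log ((2 * X : ℕ) : ℝ)) := by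
    apply Real.log_nonneg
    linarith
  have hrep : ∀ (p : ℕ), Rep' X U a p (fun _ => True) → Rep' X (U + 1) a p (fun _ => True) := by
    rintro p ⟨m, s, h1, h2, h3, h4, h5, h6⟩
    exact ⟨m, s, h1, h2.trans (pow_le_pow_right₀ (by linarith) (by omega)), h3, h4, h5, h6⟩
  have key := H (2 * X) (by omega) a ha (by rw [hcast]; exact ha2) 1 le_rfl (by
    rw [Nat.cast_one]
    exact Real.one_le_rpow (by rw [hcast]; linarith) (by norm_num)) (by simp)
  have h1 : (((Icc 1 X).filter (fun p : ℕ => p.Prime ∧ Rep' X U a p (fun _ => True))).card : ℝ) ≤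
      (((Icc 1 (2 * X)).filter (fun p : ℕ => p.Prime ∧ ((1 : ℕ) : ℤ) ∣ a - p ∧
      xx (P1 (2 * X) (U + 2) (1 / 8)) (p - a) = 1)).card : ℝ) := by
    have h2 : (Icc 1 X).filter (fun p : ℕ => p.Prime ∧ Rep' X U a p (fun _ => True)) ⊆
        (Icc 1 (2 * X)).filter (fun p : ℕ => p.Prime ∧ ((1 : ℕ) : ℤ) ∣ a - p ∧
      xx (P1 (2 * X) (U + 2) (1 / 8)) (p - a) = 1) := by
      intro p hp
      rw [mem_filter, mem_Icc] at hp ⊢
      refine ⟨⟨hp.1.1, by omega⟩, hp.2.1, by simp, ?_⟩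
      exact xx_of_rep (U := U + 1) hX128 (hrep p hp.2.2)
    exact_mod_cast Finset.card_le_card h2
  have hV := (hN₅ (2 * X) (by omega)).2
  have h3 : VV (P1 (2 * X) (U + 2) (1 / 8)) ≤
      1 / c₂ * (8 * (U + 2)) * 2 * (Real.log (Real.log X) / Real.log X) := by
    refine hV.trans ?_
    push_cast
    have h4 : ((U : ℝ) + 2) * Real.log (Real.log (2 * (X : ℝ))) / (1 / 8 * Real.log (2 * (X : ℝ))) ≤
        (8 * (U + 2)) * (2 * Real.log (Real.log X) / Real.log X) := by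
      have h5 : ((U : ℝ) + 2) * Real.log (Real.log (2 * (X : ℝ))) / (1 / 8 * Real.log (2 * (X : ℝ))) =
          (8 * (U + 2)) * (Real.log (Real.log (2 * (X : ℝ))) / Real.log (2 * (X : ℝ))) := by
        field_simp
      rw [h5]
      rw [hcast] at hLLN hlogN1 hLN0
      have h6 : Real.log (Real.log (2 * (X : ℝ))) / Real.log (2 * (X : ℝ)) ≤
          2 * Real.log (Real.log X) / Real.log X :=
        div_le_div₀ (by linarith) hLLN hLX0 hlogN1
      gcongr
    calc 1 / c₂ * (((U : ℝ) + 2) * Real.log (Real.log (2 * (X : ℝ))) / (1 / 8 * Real.log (2 * (X : ℝ))))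
        ≤ 1 / c₂ * ((8 * (U + 2)) * (2 * Real.log (Real.log X) / Real.log X)) := by gcongr
      _ = _ := by ring
  refine h1.trans (key.trans ?_)
  rw [Nat.totient_one]
  have h7 : ((2 * X : ℕ) : ℝ) / ((1 : ℕ) * Real.log ((2 * X : ℕ) : ℝ)) ≤ 2 * (X / Real.log X) := by
    rw [Nat.cast_one, one_mul, hcast]
    rw [hcast] at hlogN1
    calc 2 * (X : ℝ) / Real.log (2 * (X : ℝ)) ≤ 2 * X / Real.log X :=
          div_le_div_of_nonneg_left (by positivity) hLX0 hlogN1
      _ = _ := by ring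
  have h8 : 0 ≤ VV (P1 (2 * X) (U + 2) (1 / 8)) := by
    have := (hN₅ (2 * X) (by omega)).1
    refine le_trans ?_ this
    positivity
  calc C * (((2 * X : ℕ) : ℝ) / ((1 : ℕ) * Real.log ((2 * X : ℕ) : ℝ))) * VV (P1 (2 * X) (U + 2) (1 / 8))
      ≤ C * (2 * (X / Real.log X)) *
          (1 / c₂ * (8 * (U + 2)) * 2 * (Real.log (Real.log X) / Real.log X)) := by gcongr
    _ = _ := by ring

/-- Chebyshev's lower bound -/
theorem cheb : ∃ X₀ : ℕ, ∀ X : ℕ, X₀ ≤ X →
    (X : ℝ) / Real.log X / 2 ≤ (((Icc 1 X).filter Nat.Prime).card : ℝ) := by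
  have h1 : ∀ᶠ x : ℝ in atTop, Real.log x ≤ 1 / 20 * x := by
    have := Real.isLittleO_log_id_atTop.bound (show (0 : ℝ) < 1 / 20 by norm_num)
    filter_upwards [this, eventually_ge_atTop 1] with x hx hx1
    rw [Real.norm_of_nonneg (Real.log_nonneg hx1), id, Real.norm_of_nonneg (by linarith)] at hx
    exact hx
  obtain ⟨M, hM⟩ := eventually_atTop.1 ((tendsto_natCast_atTop_atTop (R := ℝ)).eventually h1)
  refine ⟨max M 3, fun X hX => ?_⟩
  have hX3 : 3 ≤ X := (le_max_right _ _).trans hX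
  have hXM := hM (X + 1) (by have := (le_max_left M 3).trans hX; omega)
  have hXr : (3 : ℝ) ≤ X := by exact_mod_cast hX3
  have hL : 0 < Real.log X := Real.log_pos (by linarith)
  have h2 := Chebyshev.pi_ge X
  have h3 : (Icc 1 X).filter Nat.Prime = Nat.primesLE X := by
    ext p
    rw [mem_filter, mem_Icc, Nat.mem_primesLE]
    constructor
    · rintro ⟨⟨-, h⟩, h'⟩
      exact ⟨h, h'⟩
    · rintro ⟨h, h'⟩
      exact ⟨⟨h'.one_le, h⟩, h'⟩
  rw [h3, Nat.primesLE_card_eq_primeCounting]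
  refine le_trans ?_ h2
  rw [div_div, mul_comm (Real.log (X : ℝ)) 2, ← div_div]
  apply div_le_div_of_nonneg_right _ hL.le
  push_cast at hXM
  have h4 := Real.log_two_gt_d9
  nlinarith

open Classical in
/-- **every set of `c log X/log log X` nonzero integers is exceptional for a set of almost all primes** -/
theorem sharp (hUBS : St_UBS) (hVLB : St_VLB) (U : ℕ) (η : ℝ) (hη : 0 < η) :
    ∃ (c : ℝ) (X₀ : ℕ), 0 < c ∧ ∀ X : ℕ, X₀ ≤ X → ∀ H : Finset ℤ,
      (∀ h ∈ H, h ≠ 0 ∧ |(h : ℝ)| ≤ 2 * X) →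
      (H.card : ℝ) ≤ c * (Real.log X / Real.log (Real.log X)) →
      ∃ A : Finset ℕ, (∀ p ∈ A, p.Prime ∧ p ≤ X) ∧
        (1 - η) * ((Icc 1 X).filter Nat.Prime).card ≤ A.card ∧
        ∀ h ∈ H, ∀ p ∈ A, ¬ Rep' X U h p (fun _ => True) := by
  obtain ⟨C, X₁, hC, hup⟩ := upper hUBS hVLB U
  obtain ⟨X₂, hX₂⟩ := cheb
  obtain ⟨X₃, hX₃⟩ := large_A 1 1 one_pos one_pos
  refine ⟨η / (2 * C), max X₁ (max X₂ X₃), by positivity, ?_⟩
  intro X hX H hH hHc
  simp only [max_le_iff] at hX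
  obtain ⟨hX1, hX2, hX3⟩ := hX
  obtain ⟨-, hL2, hLL1⟩ := hX₃ X hX3
  have hL0 : 0 < Real.log X := by linarith
  have hLL0 : 0 < Real.log (Real.log X) := by linarith
  set Pr := (Icc 1 X).filter Nat.Prime with hPr
  set Bad : ℤ → Finset ℕ := fun h => (Icc 1 X).filter (fun p : ℕ => p.Prime ∧
    Rep' X U h p (fun _ => True)) with hBad
  refine ⟨Pr.filter (fun p => ∀ h ∈ H, ¬ Rep' X U h p (fun _ => True)), ?_, ?_, ?_⟩
  · intro p hp
    rw [mem_filter, hPr, mem_filter, mem_Icc] at hp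
    exact ⟨hp.1.2, hp.1.1.2⟩
  · have h1 : Pr ⊆ Pr.filter (fun p => ∀ h ∈ H, ¬ Rep' X U h p (fun _ => True)) ∪ H.biUnion Bad := by
      intro p hp
      rw [mem_union, mem_filter]
      by_cases h2 : ∀ h ∈ H, ¬ Rep' X U h p (fun _ => True)
      · exact Or.inl ⟨hp, h2⟩
      · right
        push Not at h2
        obtain ⟨h, hh, hr⟩ := h2
        rw [mem_biUnion]
        refine ⟨h, hh, ?_⟩
        rw [hPr, mem_filter] at hp
        rw [hBad, mem_filter]
        exact ⟨hp.1, hp.2, hr⟩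
    have h2 : Pr.card ≤ (Pr.filter (fun p => ∀ h ∈ H, ¬ Rep' X U h p (fun _ => True))).card +
        ∑ h ∈ H, (Bad h).card :=
      (Finset.card_le_card h1).trans ((Finset.card_union_le _ _).trans
        (Nat.add_le_add_left Finset.card_biUnion_le _))
    have h3 : ((∑ h ∈ H, (Bad h).card : ℕ) : ℝ) ≤ η * Pr.card := by
      push_cast
      calc ∑ h ∈ H, ((Bad h).card : ℝ)
          ≤ ∑ h ∈ H, C * (X / Real.log X) * (Real.log (Real.log X) / Real.log X) :=
            Finset.sum_le_sum fun h hh => hup X hX1 h (hH h hh).1 (hH h hh).2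
        _ = H.card * (C * (X / Real.log X) * (Real.log (Real.log X) / Real.log X)) := by
            rw [Finset.sum_const, nsmul_eq_mul]
        _ ≤ η / (2 * C) * (Real.log X / Real.log (Real.log X)) *
            (C * (X / Real.log X) * (Real.log (Real.log X) / Real.log X)) := by
            gcongr
        _ = η * (X / Real.log X / 2) := by
            field_simp
        _ ≤ η * Pr.card := by
            have := hX₂ X hX2
            gcongr
    have h4 : (Pr.card : ℝ) ≤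
        ((Pr.filter (fun p => ∀ h ∈ H, ¬ Rep' X U h p (fun _ => True))).card : ℝ) +
        ((∑ h ∈ H, (Bad h).card : ℕ) : ℝ) := by exact_mod_cast h2
    linarith
  · intro h hh p hp
    rw [mem_filter] at hp
    exact hp.2 h hh

end Pool.Agent.U475.PL
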